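import Pool.Agent.D0H73.OP.Stm

set_option autoImplicit false

/-! Project OP (helper73), module CMP. -/

open Finset
open scoped BigOperators

namespace Pool.Agent.D0H85.OP

open Pool.Agent.V1192 Pool.Agent.V1192.GA
open Pool.Agent.V1192.UOD (V)
open Pool.Agent.D0H73.OP

noncomputable section

variable {p : ℕ} [Fact p.Prime]

lemma chr_zero {N : ℕ} (u : V p N) : chr u 0 = 1 := by
  simp [chr]

lemma chr_add {N : ℕ} (u v v' : V p N) : chr u (v + v') = chr u v * chr u v' := by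
  simp only [chr, Pi.add_apply, mul_add, Finset.sum_add_distrib, AddChar.map_add_eq_mul]

lemma norm_chr {N : ℕ} (u v : V p N) : ‖chr u v‖ = 1 := AddChar.norm_apply _ _

section Block

variable {N : ℕ → ℕ} {n : ℕ}

lemma Ex_congr (i : Fin n) (F F' : H p N n → ℂ)
    (h : ∀ v : V p (N i), F (Pi.single i v) = F' (Pi.single i v)) : Ex i F = Ex i F' := by
  unfold Ex
  congr 1
  exact Finset.sum_congr rfl (fun j _ => Finset.sum_congr rfl (fun a _ => h _))

lemma Ex_sum (i : Fin n) {β : Type} (s : Finset β) (F : β → H p N n → ℂ) (φ : β → ℂ) :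
    ∑ v ∈ s, Ex i (F v) * φ v = Ex i (fun h => ∑ v ∈ s, F v h * φ v) := by
  simp only [Ex, Finset.mul_sum, Finset.sum_mul]
  rw [Finset.sum_comm]
  refine Finset.sum_congr rfl (fun j _ => ?_)
  rw [Finset.sum_comm]
  exact Finset.sum_congr rfl (fun a _ => Finset.sum_congr rfl (fun v _ => by ring))

open Classical in
/-- the real mass -/
def er (i : Fin n) (g : H p N n) : ℝ :=
  (1 / ((N i : ℝ) * ((p : ℝ) - 1))) *
    ∑ j : Fin (N i), ∑ a ∈ (univ : Finset (ZMod p)).erase 0,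
      (if (Pi.single i (Pi.single j a) : H p N n) = g then 1 else 0)

open Classical in
lemma er_eq (i : Fin n) (g : H p N n) :
    Ex i (fun h => if h = g then 1 else 0) = ((er i g : ℝ) : ℂ) := by
  unfold Ex er
  push_cast
  congr 1
  refine Finset.sum_congr rfl (fun j _ => Finset.sum_congr rfl (fun a _ => ?_))
  split_ifs <;> simp

lemma er_nonneg (i : Fin n) (g : H p N n) : 0 ≤ er i g := by
  unfold er
  have hp : (1 : ℝ) ≤ p := by exact_mod_cast (Fact.out : p.Prime).one_lt.le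
  apply mul_nonneg
  · apply div_nonneg zero_le_one
    exact mul_nonneg (Nat.cast_nonneg _) (by linarith)
  · refine Finset.sum_nonneg (fun j _ => Finset.sum_nonneg (fun a _ => ?_))
    split_ifs <;> norm_num

lemma aa_eq (g : H p N n) : aa g = ((∑ i : Fin n, w p i * er i g : ℝ) : ℂ) := by
  unfold aa
  push_cast
  exact Finset.sum_congr rfl (fun i _ => by rw [er_eq])

lemma le_aa (hw : ∀ k, 0 < w p k) (i : Fin n) (g : H p N n) : w p i * er i g ≤ ‖(aa g : ℂ)‖ := by
  have hnn : ∀ j : Fin n, 0 ≤ w p j * er j g := fun j => mul_nonneg (hw _).le (er_nonneg _ _)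
  rw [aa_eq, Complex.norm_real, Real.norm_of_nonneg (Finset.sum_nonneg (fun j _ => hnn j))]
  exact Finset.single_le_sum (f := fun j : Fin n => w p j * er j g) (fun j _ => hnn j) (Finset.mem_univ i)

open Classical in
lemma Ex_ind (hw : ∀ k, 0 < w p k) (i : Fin n) (v : V p (N i)) :
    ‖(w p i : ℂ) * Ex i (fun h : H p N n => if h i = v then 1 else 0)‖ ≤
      ∑ g ∈ univ.filter (fun g : H p N n => g i = v), ‖(aa g : ℂ)‖ := by
  have e1 : (fun h : H p N n => if h i = v then (1 : ℂ) else 0) =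
      fun h => ∑ g ∈ univ.filter (fun g : H p N n => g i = v), (if h = g then (1 : ℂ) else 0) * 1 := by
    funext h
    simp only [mul_one]
    rw [Finset.sum_ite_eq]
    simp only [Finset.mem_filter, Finset.mem_univ, true_and]
  rw [e1, ← Ex_sum, Finset.mul_sum]
  refine (norm_sum_le _ _).trans (Finset.sum_le_sum (fun g _ => ?_))
  rw [mul_one, er_eq, ← Complex.ofReal_mul, Complex.norm_real,
    Real.norm_of_nonneg (mul_nonneg (hw _).le (er_nonneg _ _))]
  exact le_aa hw i g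

open Classical in
/-- the functions of stage `k` -/
def fj (x χ : H p N n → ℂ) (d : (i : Fin n) → V p (N i) → ℕ) (κ κ' : Fin n) (j : ℕ)
    (v : V p (N κ)) : ℂ :=
  ∑ g : H p N n, if g κ = v ∧ d κ' (g κ') = j ∧ (∀ i : Fin n, (κ' : ℕ) < (i : ℕ) → d i (g i) = 0)
    then x g * χ g else 0

open Classical in
lemma norm_fj (x χ : H p N n → ℂ) (d : (i : Fin n) → V p (N i) → ℕ) (κ κ' : Fin n) (j : ℕ)
    (v : V p (N κ)) (hχ : ∀ g, ‖χ g‖ = 1) :
    ‖fj x χ d κ κ' j v‖ ≤ ∑ g ∈ univ.filter (fun g : H p N n => g κ = v), ‖x g‖ := by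
  unfold fj
  refine (norm_sum_le _ _).trans ?_
  rw [Finset.sum_filter]
  refine Finset.sum_le_sum (fun g _ => ?_)
  by_cases h : g κ = v
  · rw [if_pos h]
    split_ifs
    · rw [norm_mul, hχ, mul_one]
    · rw [norm_zero]
      exact norm_nonneg _
  · rw [if_neg h, if_neg (fun hh => h hh.1), norm_zero]

open Classical in
lemma prod_sv (d : (i : Fin n) → V p (N i) → ℕ) (κ' : Fin n) (ζ : ℂ) (g : H p N n) :
    ∏ i : Fin n, sv (κ' : ℕ) ζ 0 i ^ d i (g i) = ζ ^ d κ' (g κ') *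
      (if ∀ i : Fin n, (κ' : ℕ) < (i : ℕ) → d i (g i) = 0 then 1 else 0) := by
  have e : ∀ i : Fin n, sv (κ' : ℕ) ζ 0 i ^ d i (g i) =
      (if i = κ' then ζ ^ d κ' (g κ') else 1) *
        (if (κ' : ℕ) < (i : ℕ) then (0 : ℂ) ^ d i (g i) else 1) := by
    intro i
    unfold sv
    rcases lt_trichotomy (i : ℕ) (κ' : ℕ) with h | h | h
    · rw [if_pos h, if_neg (fun hh => by rw [hh] at h; exact lt_irrefl _ h), if_neg (by omega), one_pow,
        one_mul]
    · have hi : i = κ' := Fin.ext h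
      subst hi
      rw [if_neg (lt_irrefl _), if_pos rfl, if_pos rfl, if_neg (lt_irrefl _), mul_one]
    · have h1 : ¬ (i : ℕ) < (κ' : ℕ) := by omega
      have h2 : ¬ (i : ℕ) = (κ' : ℕ) := by omega
      have h3 : ¬ i = κ' := fun hh => h2 (congrArg Fin.val hh)
      rw [if_neg h1, if_neg h2, ite_self, if_neg h3, if_pos h, one_mul]
  rw [Finset.prod_congr rfl (fun i _ => e i), Finset.prod_mul_distrib, Finset.prod_ite_eq' Finset.univ κ',
    if_pos (Finset.mem_univ _)]
  congr 1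
  split_ifs with h
  · refine Finset.prod_eq_one (fun i _ => ?_)
    split_ifs with hi
    · rw [h i hi, pow_zero]
    · rfl
  · push Not at h
    obtain ⟨i, hi, hi2⟩ := h
    refine Finset.prod_eq_zero (Finset.mem_univ i) ?_
    rw [if_pos hi, zero_pow hi2]

lemma prod_sv2 (d : (i : Fin n) → V p (N i) → ℕ) (κ : Fin n) (q ζ : ℂ) (g : H p N n) :
    ∏ i : Fin n, sv (κ : ℕ) q ζ i ^ d i (g i) = q ^ d κ (g κ) *
      ∏ i : Fin n, sv ((κ : ℕ) + 1) ζ 0 i ^ d i (g i) := by
  classical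
  have e : ∀ i : Fin n, sv (κ : ℕ) q ζ i ^ d i (g i) =
      (if i = κ then q ^ d κ (g κ) else 1) * sv ((κ : ℕ) + 1) ζ 0 i ^ d i (g i) := by
    intro i
    unfold sv
    rcases lt_trichotomy (i : ℕ) (κ : ℕ) with h | h | h
    · rw [if_pos h, if_neg (fun hh => by rw [hh] at h; exact lt_irrefl _ h), if_pos (by omega), one_mul]
    · have hi : i = κ := Fin.ext h
      subst hi
      rw [if_neg (lt_irrefl _), if_pos rfl, if_pos rfl, if_pos (by omega), one_pow, mul_one]
    · have h1 : ¬ (i : ℕ) < (κ : ℕ) := by omega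
      have h2 : ¬ (i : ℕ) = (κ : ℕ) := by omega
      have h3 : ¬ i = κ := fun hh => h2 (congrArg Fin.val hh)
      have h4 : ¬ (i : ℕ) < (κ : ℕ) + 1 := by omega
      rw [if_neg h1, if_neg h2, if_neg h3, if_neg h4, ite_self, one_mul]
  rw [Finset.prod_congr rfl (fun i _ => e i), Finset.prod_mul_distrib, Finset.prod_ite_eq' Finset.univ κ,
    if_pos (Finset.mem_univ _)]

lemma key (x χ : H p N n → ℂ) (d : (i : Fin n) → V p (N i) → ℕ) (κ κ' : Fin n)
    (hκ : (κ' : ℕ) = (κ : ℕ) + 1) (D : ℕ) (hD : ∀ v, d κ' v ≤ D) (u : V p (N κ)) (q ζ : ℂ) :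
    ap x (Ph d (fun g => χ g * chr u (g κ)) (sv ((κ : ℕ) + 1) ζ 0)) - ap x (Ph d χ (sv (κ : ℕ) q ζ)) =
      ∑ j : Fin (D + 1), ζ ^ (j : ℕ) * ∑ v, fj x χ d κ κ' j v * (chr u v - q ^ d κ v) := by
  classical
  have hL : ap x (Ph d (fun g => χ g * chr u (g κ)) (sv ((κ : ℕ) + 1) ζ 0)) -
      ap x (Ph d χ (sv (κ : ℕ) q ζ)) = ∑ g : H p N n, x g * χ g * (chr u (g κ) - q ^ d κ (g κ)) *
        (ζ ^ d κ' (g κ') *
          (if ∀ i : Fin n, (κ' : ℕ) < (i : ℕ) → d i (g i) = 0 then 1 else 0)) := by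
    unfold ap Ph
    rw [← Finset.sum_sub_distrib]
    refine Finset.sum_congr rfl (fun g _ => ?_)
    rw [prod_sv2, ← hκ, prod_sv]
    ring
  have hR : ∑ j : Fin (D + 1), ζ ^ (j : ℕ) * ∑ v, fj x χ d κ κ' j v * (chr u v - q ^ d κ v) =
      ∑ g : H p N n, ∑ j : Fin (D + 1), ∑ v, ζ ^ (j : ℕ) *
        ((if g κ = v ∧ d κ' (g κ') = j ∧ (∀ i : Fin n, (κ' : ℕ) < (i : ℕ) → d i (g i) = 0)
          then x g * χ g else 0) * (chr u v - q ^ d κ v)) := by
    unfold fj
    simp only [Finset.mul_sum, Finset.sum_mul]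
    rw [Finset.sum_comm' (s := (univ : Finset (H p N n))) (t := fun _ => (univ : Finset (Fin (D + 1))))
      (t' := (univ : Finset (Fin (D + 1)))) (s' := fun _ => (univ : Finset (H p N n)))
      (h := fun _ _ => by simp)]
    refine Finset.sum_congr rfl (fun j _ => ?_)
    rw [Finset.sum_comm]
  rw [hL, hR]
  refine Finset.sum_congr rfl (fun g _ => ?_)
  rw [Finset.sum_eq_single (⟨d κ' (g κ'), Nat.lt_succ_of_le (hD _)⟩ : Fin (D + 1)),
    Finset.sum_eq_single (g κ)]
  · by_cases h : ∀ i : Fin n, (κ' : ℕ) < (i : ℕ) → d i (g i) = 0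
    · rw [if_pos h, if_pos ⟨rfl, rfl, h⟩]
      ring
    · rw [if_neg h, if_neg (fun hh => h hh.2.2)]
      ring
  · intro v _ hv
    rw [if_neg (fun hh => hv hh.1.symm)]
    ring
  · intro h
    exact absurd (Finset.mem_univ _) h
  · intro j _ hj
    refine Finset.sum_eq_zero (fun v _ => ?_)
    rw [if_neg (fun hh => hj (Fin.ext hh.2.1.symm))]
    ring
  · intro h
    exact absurd (Finset.mem_univ _) h

end Block

theorem t_CMP (hC : S_CONC) (hN : S_NUM) (hA : S_AAF) (hV : S_VAL) : S_CMP := by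
  classical
  intro p hp N l x y d m hNpos hD k χ hk hχ r hr hrb
  obtain ⟨hw, htau, -, -, -, -⟩ := hN p
  have hwp : ∀ k, 0 < w p k := fun k => (hw k).1
  have hp2 : (2 : ℝ) ≤ p := by exact_mod_cast hp.out.two_le
  set κ : Fin (l + 2) := ⟨k, by omega⟩ with hκ
  set κ' : Fin (l + 2) := ⟨k + 1, by omega⟩ with hκ'
  have hκκ : (κ' : ℕ) = (κ : ℕ) + 1 := rfl
  obtain ⟨q, hq⟩ : ∃ q : ℝ, q = -r / w p k := ⟨_, rfl⟩
  have hqb : |q| ≤ 1 / (8 * p) := by
    rw [hq, abs_div, abs_neg, abs_of_pos (hwp k), div_le_iff₀ (hwp k)]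
    calc |r| ≤ w p k / (8 * p) := hrb
      _ = 1 / (8 * p) * w p k := by ring
  have hq2 : |q| ≤ 1 / 2 := by
    refine hqb.trans ?_
    rw [div_le_div_iff₀ (by linarith) (by norm_num)]
    linarith
  have hwq : w p k * q = -r := by
    rw [hq]
    field_simp [(hwp k).ne']
  obtain ⟨D, hDb⟩ : ∃ D, ∀ v, d κ' v ≤ D :=
    ⟨Finset.univ.sup (d κ'), fun v => Finset.le_sup (Finset.mem_univ v)⟩
  have hm0 : ∀ v, 0 ≤ m κ v := fun v =>
    le_trans (Finset.sum_nonneg (fun g _ => norm_nonneg _)) (hD.mx κ v)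
  obtain ⟨u, hu⟩ := hC p (N κ) (m κ) 16 (tau p κ) (d κ) (by norm_num) (htau κ).1 (htau κ).2.1
    (hD.pkg κ) hm0 (hD.msym κ) (hD.mtot κ) q hqb (Option (Fin (D + 1)))
    (fun o v => o.elim ((w p κ : ℂ) * Ex κ (fun h : H p N (l + 2) => if h κ = v then 1 else 0))
      (fun j => fj x χ d κ κ' j v))
    (fun o => o.elim 1 (fun j => (1 / 2 : ℝ) ^ (j : ℕ)))
    (by
      intro o
      cases o with
      | none => exact zero_le_one
      | some j => exact pow_nonneg (by norm_num) _)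
    (by
      intro o v
      cases o with
      | none => exact (Ex_ind hwp κ v).trans (hD.ma κ v)
      | some j => exact (norm_fj x χ d κ κ' j v hχ.norm).trans (hD.mx κ v))
  rw [Fintype.sum_option, Fintype.sum_option] at hu
  simp only [Option.elim_none, Option.elim_some, one_mul] at hu
  have hgeo : ∑ j : Fin (D + 1), (1 / 2 : ℝ) ^ (j : ℕ) ≤ 2 := by
    rw [Fin.sum_univ_eq_sum_range (fun j => (1 / 2 : ℝ) ^ j)]
    exact sum_geometric_two_le _
  have hsq : Real.sqrt (tau p κ) = w p (k + 1) ^ 2 / 10 ^ 5 := by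
    have : tau p κ = (w p (k + 1) ^ 2 / 10 ^ 5) ^ 2 := by
      unfold tau
      change w p (k + 1) ^ 4 / 10 ^ 10 = _
      ring
    rw [this, Real.sqrt_sq (by positivity)]
  set W : ℝ := w p (k + 1) with hW
  have hWp : 0 < W := hwp _
  have hW1 : W ≤ 1 := (hw _).2.1
  have hWr : W = w p k ^ 2 / (1000 * p) := rfl
  have hwk1 : w p k ≤ 1 := (hw _).2.1
  have hW2 : W ≤ 1 / (1000 * p) := by
    rw [hWr]
    apply div_le_div_of_nonneg_right _ (by positivity)
    exact pow_le_one₀ (hwp k).le hwk1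
  have hbound : (1 + ∑ j : Fin (D + 1), (1 / 2 : ℝ) ^ (j : ℕ)) * (3 * 16 * Real.sqrt (tau p κ)) ≤
      144 * (W ^ 2 / 10 ^ 5) := by
    rw [hsq]
    have h1 : 0 ≤ 3 * 16 * (W ^ 2 / 10 ^ 5) := by positivity
    nlinarith
  have hu1 : ‖∑ v, (w p κ : ℂ) * Ex κ (fun h : H p N (l + 2) => if h κ = v then 1 else 0) *
      (chr u v - (q : ℂ) ^ d κ v)‖ ≤ 144 * (W ^ 2 / 10 ^ 5) := by
    refine le_trans ?_ (hu.trans hbound)
    refine le_add_of_nonneg_right (Finset.sum_nonneg (fun j _ => ?_))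
    exact mul_nonneg (pow_nonneg (by norm_num) _) (norm_nonneg _)
  have hu2 : ∑ j : Fin (D + 1), (1 / 2 : ℝ) ^ (j : ℕ) *
      ‖∑ v, fj x χ d κ κ' j v * (chr u v - (q : ℂ) ^ d κ v)‖ ≤ 144 * (W ^ 2 / 10 ^ 5) := by
    refine le_trans ?_ (hu.trans hbound)
    exact le_add_of_nonneg_left (norm_nonneg _)
  -- the new character
  have hχ' : IsChr (k + 1) (fun g : H p N (l + 2) => χ g * chr u (g κ)) := by
    refine ⟨fun g h => ?_, fun g => ?_, fun g hg => ?_⟩
    · change χ (g + h) * chr u (g κ + h κ) = _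
      rw [hχ.add, chr_add]
      ring
    · rw [norm_mul, hχ.norm, norm_chr, mul_one]
    · have h1 : g κ = 0 := hg κ (Nat.lt_succ_self k)
      rw [h1, chr_zero, mul_one]
      exact hχ.triv g (fun i hi => hg i (Nat.lt_succ_of_lt hi))
  -- its residual
  have htt : tt (k + 1) (fun g : H p N (l + 2) => χ g * chr u (g κ)) =
      tt k χ + (w p κ : ℂ) * Ex κ (fun g : H p N (l + 2) => chr u (g κ)) := by
    unfold tt
    have hset : univ.filter (fun i : Fin (l + 2) => (i : ℕ) < k + 1) =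
        insert κ (univ.filter (fun i : Fin (l + 2) => (i : ℕ) < k)) := by
      ext i
      simp only [Finset.mem_filter, Finset.mem_univ, true_and, Finset.mem_insert]
      constructor
      · intro h
        rcases Nat.lt_succ_iff_lt_or_eq.1 h with h | h
        · exact Or.inr h
        · exact Or.inl (Fin.ext h)
      · rintro (h | h)
        · rw [h]
          exact Nat.lt_succ_self k
        · omega
    rw [hset, Finset.sum_insert (by
      rw [Finset.mem_filter]
      exact fun hh => lt_irrefl k hh.2), add_comm]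
    congr 1
    · refine Finset.sum_congr rfl (fun i hi => ?_)
      rw [Finset.mem_filter] at hi
      have hne : κ ≠ i := fun hh => by
        have := hi.2
        rw [← hh] at this
        exact lt_irrefl k this
      congr 1
      refine Ex_congr i _ _ (fun v => ?_)
      rw [Pi.single_eq_of_ne hne, chr_zero, mul_one]
    · congr 1
      refine Ex_congr κ _ _ (fun v => ?_)
      have : χ (Pi.single κ v) = 1 := hχ.triv _ (fun i hi => by
        have hne : i ≠ κ := fun hh => by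
          rw [hh] at hi
          exact lt_irrefl k hi
        rw [Pi.single_eq_of_ne hne])
      rw [this, one_mul]
  have hsum : ∀ φ : V p (N κ) → ℂ,
      ∑ v, (w p κ : ℂ) * Ex κ (fun h : H p N (l + 2) => if h κ = v then 1 else 0) * φ v =
        (w p κ : ℂ) * Ex κ (fun h : H p N (l + 2) => φ (h κ)) := by
    intro φ
    have e2 : (fun h : H p N (l + 2) => φ (h κ)) =
        fun h => ∑ v, (if h κ = v then (1 : ℂ) else 0) * φ v := by
      funext h
      simp only [ite_mul, one_mul, zero_mul]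
      rw [Finset.sum_ite_eq, if_pos (Finset.mem_univ _)]
    rw [e2, ← Ex_sum, Finset.mul_sum]
    exact Finset.sum_congr rfl (fun v _ => by ring)
  have hval := (hV p N (l + 2) d m (fun i => tau p i) k χ (sv k (q : ℂ) 0) hNpos hD.pkg hχ
    (fun i hi => by unfold sv; rw [if_pos hi])
    (fun i hi => by
      unfold sv
      rw [if_neg (by omega)]
      split_ifs
      · rw [Complex.norm_real]
        exact hq2
      · rw [norm_zero]; norm_num
      · rw [norm_zero]; norm_num)).1 κ (le_refl k)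
  have hsvk : sv k (q : ℂ) 0 κ = (q : ℂ) := by
    unfold sv
    rw [if_neg (lt_irrefl k), if_pos rfl]
  have hExk : Ex κ (Ph d χ (sv k (q : ℂ) 0)) = Ex κ (fun h : H p N (l + 2) => (q : ℂ) ^ d κ (h κ)) := by
    refine Ex_congr κ _ _ (fun v => ?_)
    have h1 : χ (Pi.single κ v) = 1 := hχ.triv _ (fun i hi => by
      have hne : i ≠ κ := fun hh => by
        rw [hh] at hi
        exact lt_irrefl k hi
      rw [Pi.single_eq_of_ne hne])
    unfold Ph
    rw [h1, one_mul, Finset.prod_eq_single κ]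
    · rw [hsvk]
    · intro i _ hi
      rw [Pi.single_eq_of_ne hi, (hD.pkg i).zero, pow_zero]
    · intro h
      exact absurd (Finset.mem_univ _) h
  rw [hsvk, hExk] at hval
  have hres : ‖tt (k + 1) (fun g : H p N (l + 2) => χ g * chr u (g κ))‖ ≤ W / (8 * p) := by
    rw [htt, hr]
    have e3 : (r : ℂ) + (w p κ : ℂ) * Ex κ (fun g : H p N (l + 2) => chr u (g κ)) =
        (∑ v, (w p κ : ℂ) * Ex κ (fun h : H p N (l + 2) => if h κ = v then 1 else 0) *
          (chr u v - (q : ℂ) ^ d κ v)) +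
        (w p κ : ℂ) * (Ex κ (fun h : H p N (l + 2) => (q : ℂ) ^ d κ (h κ)) - (q : ℂ)) := by
      have e4 : (w p κ : ℂ) * (q : ℂ) = -(r : ℂ) := by
        rw [← Complex.ofReal_mul]
        change ((w p k * q : ℝ) : ℂ) = _
        rw [hwq, Complex.ofReal_neg]
      have e5 : ∑ v, (w p κ : ℂ) * Ex κ (fun h : H p N (l + 2) => if h κ = v then 1 else 0) *
          (chr u v - (q : ℂ) ^ d κ v) =
          (w p κ : ℂ) * Ex κ (fun g : H p N (l + 2) => chr u (g κ)) -
            (w p κ : ℂ) * Ex κ (fun h : H p N (l + 2) => (q : ℂ) ^ d κ (h κ)) := by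
        rw [← hsum (chr u), ← hsum (fun v => (q : ℂ) ^ d κ v), ← Finset.sum_sub_distrib]
        exact Finset.sum_congr rfl (fun v _ => by ring)
      rw [e5, mul_sub, e4]
      ring
    rw [e3]
    refine (norm_add_le _ _).trans ?_
    have h2 : ‖(w p κ : ℂ) * (Ex κ (fun h : H p N (l + 2) => (q : ℂ) ^ d κ (h κ)) - (q : ℂ))‖ ≤
        2 * tau p κ := by
      rw [norm_mul, Complex.norm_real, Real.norm_of_nonneg (hwp κ).le]
      calc w p κ * _ ≤ 1 * (2 * tau p κ) := by
            apply mul_le_mul (hw κ).2.1 hval (norm_nonneg _) zero_le_one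
        _ = _ := one_mul _
    have h3 : tau p κ = W ^ 4 / 10 ^ 10 := rfl
    rw [h3] at h2
    have h4 : W ^ 4 ≤ W ^ 2 := pow_le_pow_of_le_one hWp.le hW1 (by norm_num)
    have h5 : W ^ 2 ≤ W * (1 / (1000 * p)) := by
      rw [pow_two]
      exact mul_le_mul_of_nonneg_left hW2 hWp.le
    have h6 : W * (1 / (1000 * p)) = W / (8 * p) / 125 := by
      field_simp
      ring
    rw [h6] at h5
    have h7 : 0 < W / (8 * p) := by positivity
    refine (add_le_add hu1 h2).trans ?_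
    nlinarith
  obtain ⟨r', hr'⟩ : ∃ r' : ℝ, tt (k + 1) (fun g : H p N (l + 2) => χ g * chr u (g κ)) = (r' : ℂ) := by
    have h8 : ∀ i : Fin (l + 2), ∃ t : ℝ,
        Ex i (fun g : H p N (l + 2) => χ g * chr u (g κ)) = (t : ℂ) := fun i =>
      (hA p N (l + 2) hNpos).2.2.2 i _ hχ'.add hχ'.norm
    choose t ht using h8
    refine ⟨∑ i ∈ univ.filter (fun i : Fin (l + 2) => (i : ℕ) < k + 1), w p i * t i, ?_⟩
    unfold tt
    push_cast
    exact Finset.sum_congr rfl (fun i _ => by rw [ht i])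
  refine ⟨fun g => χ g * chr u (g κ), hχ', ⟨r', hr', ?_⟩, ?_⟩
  · rw [hr', Complex.norm_real] at hres
    exact hres
  · intro ζ hζ
    have hqc : ((-r / w p k : ℝ) : ℂ) = (q : ℂ) := by rw [hq]
    rw [hqc]
    have h9 := key x χ d κ κ' hκκ D hDb u (q : ℂ) ζ
    change ‖ap x (Ph d (fun g => χ g * chr u (g κ)) (sv ((κ : ℕ) + 1) ζ 0)) -
      ap x (Ph d χ (sv (κ : ℕ) (q : ℂ) ζ))‖ ≤ _
    rw [h9]
    refine (norm_sum_le _ _).trans ?_
    have h10 : ∑ j : Fin (D + 1), ‖ζ ^ (j : ℕ) *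
        ∑ v, fj x χ d κ κ' j v * (chr u v - (q : ℂ) ^ d κ v)‖ ≤ ∑ j : Fin (D + 1),
        (1 / 2 : ℝ) ^ (j : ℕ) * ‖∑ v, fj x χ d κ κ' j v * (chr u v - (q : ℂ) ^ d κ v)‖ := by
      refine Finset.sum_le_sum (fun j _ => ?_)
      rw [norm_mul, norm_pow]
      exact mul_le_mul_of_nonneg_right (pow_le_pow_left₀ (norm_nonneg _) hζ _) (norm_nonneg _)
    refine h10.trans (hu2.trans ?_)
    have h11 : 0 ≤ W ^ 2 := by positivity
    linarith

end

end Pool.Agent.D0H85.OP
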